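import Mathlib

/-!
Counting atoms of families of arithmetic progressions.

If `m` arithmetic progressions inside `[0, n)` split `[0, n)` into classes of size at most `K`, then
`n * exp (-r * m * (1/B + 1/n)) ≤ K * M * (m+1)^2 * (1 + exp (-r))^m` for every `r ≥ 0`, every `B`
and every common multiple `M` of `1, ..., B - 1`.
-/

set_option autoImplicit false

namespace Pool.Agent.H82

open Finset

theorem mem_ap_iff {a d L x : ℕ} (hd : 1 ≤ d) :
    x ∈ (range L).image (fun j => a + d * j) ↔ a ≤ x ∧ x < a + d * L ∧ x ≡ a [MOD d] := by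
  constructor
  · intro h
    simp only [mem_image, mem_range] at h
    obtain ⟨j, hj, rfl⟩ := h
    refine ⟨by omega, ?_, ?_⟩
    · have : d * j < d * L := Nat.mul_lt_mul_of_pos_left hj hd
      omega
    · simp [Nat.ModEq]
  · rintro ⟨h1, h2, h3⟩
    have h4 : d ∣ x - a := (Nat.modEq_iff_dvd' h1).mp h3.symm
    obtain ⟨j, hj⟩ := h4
    simp only [mem_image, mem_range]
    refine ⟨j, ?_, by omega⟩
    by_contra hjL
    have : d * L ≤ d * j := Nat.mul_le_mul_left d (by omega)
    omega

theorem card_sparse {n a d L B : ℕ} (hB : 1 ≤ B) (hd : d = 0 ∨ B ≤ d)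
    (h : (range L).image (fun j => a + d * j) ⊆ range n) :
    (((range L).image (fun j => a + d * j)).card : ℝ) ≤ n / B + 1 := by
  have hBpos : (0 : ℝ) < B := by exact_mod_cast hB
  rcases hd with rfl | hd
  · have h1 : ((range L).image (fun j => a + 0 * j)).card ≤ 1 := by
      apply Finset.card_le_one.mpr
      intro x hx y hy
      simp only [zero_mul, add_zero, mem_image, mem_range] at hx hy
      obtain ⟨_, _, rfl⟩ := hx
      obtain ⟨_, _, rfl⟩ := hy
      rfl
    have h2 : (((range L).image (fun j => a + 0 * j)).card : ℝ) ≤ 1 := by exact_mod_cast h1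
    have h3 : (0 : ℝ) ≤ n / B := by positivity
    linarith
  · rcases Nat.eq_zero_or_pos L with rfl | hL
    · simp
      positivity
    · have h1 : ((range L).image (fun j => a + d * j)).card ≤ L := by
        simpa using Finset.card_image_le (s := range L) (f := fun j => a + d * j)
      have h2 : a + d * (L - 1) ∈ range n := by
        apply h
        simp only [mem_image, mem_range]
        exact ⟨L - 1, by omega, rfl⟩
      rw [mem_range] at h2
      have h3 : B * (L - 1) ≤ n := by
        have : B * (L - 1) ≤ d * (L - 1) := Nat.mul_le_mul_right _ hd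
        omega
      have h4 : (B : ℝ) * ((L : ℝ) - 1) ≤ n := by
        have h5 : ((L - 1 : ℕ) : ℝ) = (L : ℝ) - 1 := by
          rw [Nat.cast_sub hL]; simp
        rw [← h5]
        exact_mod_cast h3
      have h6 : (((range L).image (fun j => a + d * j)).card : ℝ) ≤ L := by exact_mod_cast h1
      have h7 : (L : ℝ) - 1 ≤ n / B := by
        rw [le_div_iff₀ hBpos]
        linarith
      linarith

/-- Counting sets below thresholds determines them. -/
theorem thr {m : ℕ} (θ : Fin m → ℕ) {x y : ℕ}
    (h : (univ.filter (fun i => θ i ≤ x)).card = (univ.filter (fun i => θ i ≤ y)).card) :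
    ∀ i, θ i ≤ x ↔ θ i ≤ y := by
  wlog hxy : x ≤ y generalizing x y
  · intro i
    exact (this h.symm (by omega) i).symm
  have hsub : univ.filter (fun i => θ i ≤ x) ⊆ univ.filter (fun i => θ i ≤ y) := by
    intro i hi
    simp only [mem_filter, mem_univ, true_and] at hi ⊢
    omega
  have heq := Finset.eq_of_subset_of_card_le hsub h.ge
  intro i
  have := Finset.ext_iff.mp heq i
  simpa using this

theorem key {n m K B M : ℕ} (hB : 1 ≤ B) (hn : 1 ≤ n) (hM : 0 < M)
    (hMd : ∀ d, 1 ≤ d → d < B → d ∣ M)
    (T : Fin m → Finset ℕ)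
    (hT : ∀ i, T i ⊆ range n ∧ ∃ a d L : ℕ, T i = (range L).image (fun j => a + d * j))
    (hK : ∀ x ∈ range n, ((range n).filter (fun y => ∀ i, y ∈ T i ↔ x ∈ T i)).card ≤ K)
    (r : ℝ) (hr : 0 ≤ r) :
    (n : ℝ) * Real.exp (-(r * (m * (1 / B + 1 / n)))) ≤
      K * M * (m + 1) ^ 2 * (1 + Real.exp (-r)) ^ m := by
  classical
  choose hsub a d L hTeq using hT
  set A : ℕ → Finset (Fin m) := fun x => univ.filter (fun i => (d i = 0 ∨ B ≤ d i) ∧ x ∈ T i)
    with hA
  set r1 : ℕ → ℕ := fun x => (univ.filter (fun i => a i ≤ x)).card with hr1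
  set r2 : ℕ → ℕ := fun x => (univ.filter (fun i => a i + d i * L i ≤ x)).card with hr2
  set Φ : ℕ → ℕ × ℕ × ℕ × Finset (Fin m) := fun x => (x % M, r1 x, r2 x, A x) with hΦ
  have hΦ_inj : ∀ x y, Φ x = Φ y → ∀ i, x ∈ T i ↔ y ∈ T i := by
    intro x y hxy i
    simp only [hΦ, Prod.mk.injEq] at hxy
    obtain ⟨h1, h2, h3, h4⟩ := hxy
    by_cases hi : d i = 0 ∨ B ≤ d i
    · have := Finset.ext_iff.mp h4 i
      simpa [hA, hi] using this
    · push Not at hi
      have hdi : 1 ≤ d i := Nat.one_le_iff_ne_zero.mpr hi.1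
      rw [hTeq i, mem_ap_iff hdi, mem_ap_iff hdi]
      have e1 := thr a h2 i
      have e2 := thr (fun i => a i + d i * L i) h3 i
      have e3 : x ≡ y [MOD d i] := (show x ≡ y [MOD M] from h1).of_dvd (hMd _ hdi hi.2)
      constructor
      · rintro ⟨h5, h6, h7⟩
        exact ⟨e1.mp h5, not_le.mp (fun h => absurd (e2.mpr h) (not_le.mpr h6)), e3.symm.trans h7⟩
      · rintro ⟨h5, h6, h7⟩
        exact ⟨e1.mpr h5, not_le.mp (fun h => absurd (e2.mp h) (not_le.mpr h6)), e3.trans h7⟩
  -- upper bound for the weighted sum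
  set R := (range M) ×ˢ ((range (m + 1)) ×ˢ ((range (m + 1)) ×ˢ (univ : Finset (Finset (Fin m)))))
    with hR
  have hmaps : ∀ x ∈ range n, Φ x ∈ R := by
    intro x _
    simp only [hR, hΦ, mem_product, mem_range, mem_univ, and_true]
    refine ⟨Nat.mod_lt _ hM, ?_, ?_⟩
    · have := Finset.card_filter_le (univ : Finset (Fin m)) (fun i => a i ≤ x)
      simp only [card_univ, Fintype.card_fin] at this
      simp only [hr1]; omega
    · have := Finset.card_filter_le (univ : Finset (Fin m)) (fun i => a i + d i * L i ≤ x)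
      simp only [card_univ, Fintype.card_fin] at this
      simp only [hr2]; omega
  have hupper : ∑ x ∈ range n, Real.exp (-r) ^ (A x).card ≤
      K * M * (m + 1) ^ 2 * (1 + Real.exp (-r)) ^ m := by
    rw [← Finset.sum_fiberwise_of_maps_to hmaps]
    have h1 : ∀ φ ∈ R, ∑ x ∈ (range n).filter (fun x => Φ x = φ), Real.exp (-r) ^ (A x).card ≤
        K * Real.exp (-r) ^ (φ.2.2.2).card := by
      intro φ _
      have h2 : ∀ x ∈ (range n).filter (fun x => Φ x = φ),
          Real.exp (-r) ^ (A x).card = Real.exp (-r) ^ (φ.2.2.2).card := by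
        intro x hx
        rw [mem_filter] at hx
        rw [← hx.2]
      rw [Finset.sum_congr rfl h2, Finset.sum_const, nsmul_eq_mul]
      apply mul_le_mul_of_nonneg_right _ (by positivity)
      rcases ((range n).filter (fun x => Φ x = φ)).eq_empty_or_nonempty with h3 | ⟨x, hx⟩
      · rw [h3]; simp
      · rw [mem_filter] at hx
        have h4 : ((range n).filter (fun y => Φ y = φ)) ⊆
            ((range n).filter (fun y => ∀ i, y ∈ T i ↔ x ∈ T i)) := by
          intro y hy
          rw [mem_filter] at hy ⊢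
          exact ⟨hy.1, hΦ_inj y x (hy.2.trans hx.2.symm)⟩
        exact_mod_cast (Finset.card_le_card h4).trans (hK x hx.1)
    refine (Finset.sum_le_sum h1).trans ?_
    rw [← Finset.mul_sum]
    have h5 : ∑ φ ∈ R, Real.exp (-r) ^ (φ.2.2.2).card =
        M * ((m + 1) * ((m + 1) * (1 + Real.exp (-r)) ^ m)) := by
      rw [hR, Finset.sum_product]
      simp only [Finset.sum_product, Finset.sum_const, card_range, nsmul_eq_mul]
      have h6 : ∑ A : Finset (Fin m), Real.exp (-r) ^ A.card = (1 + Real.exp (-r)) ^ m := by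
        have := Fintype.sum_pow_mul_eq_add_pow (Fin m) (Real.exp (-r)) (1 : ℝ)
        simp only [one_pow, mul_one, Fintype.card_fin] at this
        rw [this, add_comm]
      rw [h6]
      push_cast
      ring
    rw [h5]
    apply le_of_eq
    ring
  -- lower bound
  set μ : ℝ := m * (1 / B + 1 / n) with hμ
  have hnpos : (0 : ℝ) < n := by exact_mod_cast hn
  have hsum : ∑ x ∈ range n, ((A x).card : ℝ) ≤ n * μ := by
    have h1 : ∑ x ∈ range n, (A x).card =
        ∑ i : Fin m, ((range n).filter (fun x => (d i = 0 ∨ B ≤ d i) ∧ x ∈ T i)).card := by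
      simp only [hA, Finset.card_filter]
      rw [Finset.sum_comm]
    have h2 : ∀ i : Fin m,
        (((range n).filter (fun x => (d i = 0 ∨ B ≤ d i) ∧ x ∈ T i)).card : ℝ) ≤ n / B + 1 := by
      intro i
      by_cases hi : d i = 0 ∨ B ≤ d i
      · have h3 : (range n).filter (fun x => (d i = 0 ∨ B ≤ d i) ∧ x ∈ T i) ⊆ T i := by
          intro x hx
          rw [mem_filter] at hx
          exact hx.2.2
        have h4 : (((T i).card : ℕ) : ℝ) ≤ n / B + 1 := by
          have h5 := card_sparse (n := n) (a := a i) (L := L i) hB hi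
            (by rw [← hTeq i]; exact hsub i)
          rw [← hTeq i] at h5
          exact h5
        refine le_trans ?_ h4
        exact_mod_cast Finset.card_le_card h3
      · have h3 : (range n).filter (fun x => (d i = 0 ∨ B ≤ d i) ∧ x ∈ T i) = ∅ := by
          apply Finset.filter_eq_empty_iff.mpr
          intro x _ hx
          exact hi hx.1
        rw [h3]
        simp
        positivity
    have h3 : ((∑ x ∈ range n, (A x).card : ℕ) : ℝ) ≤ m * (n / B + 1) := by
      rw [h1]
      push_cast
      refine (Finset.sum_le_sum (fun i _ => h2 i)).trans ?_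
      rw [Finset.sum_const, card_univ, Fintype.card_fin, nsmul_eq_mul]
    have h4 : (n : ℝ) * μ = m * (n / B + 1) := by
      rw [hμ]
      field_simp
    rw [h4]
    exact_mod_cast h3
  have hlower : (n : ℝ) * Real.exp (-(r * μ)) ≤ ∑ x ∈ range n, Real.exp (-r) ^ (A x).card := by
    have h1 : ∀ x ∈ range n, Real.exp (-(r * μ)) * (1 - r * ((A x).card - μ)) ≤
        Real.exp (-r) ^ (A x).card := by
      intro x _
      have h2 : Real.exp (-r) ^ (A x).card =
          Real.exp (-(r * μ)) * Real.exp (-(r * ((A x).card - μ))) := by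
        rw [← Real.exp_nat_mul, ← Real.exp_add]
        congr 1
        ring
      rw [h2]
      apply mul_le_mul_of_nonneg_left _ (Real.exp_pos _).le
      have := Real.add_one_le_exp (-(r * ((A x).card - μ)))
      linarith
    refine le_trans ?_ (Finset.sum_le_sum h1)
    rw [← Finset.mul_sum, Finset.sum_sub_distrib, ← Finset.mul_sum, Finset.sum_sub_distrib]
    simp only [Finset.sum_const, card_range, nsmul_eq_mul, mul_one]
    have h3 : r * (∑ x ∈ range n, ((A x).card : ℝ) - n * μ) ≤ 0 :=
      mul_nonpos_of_nonneg_of_nonpos hr (by linarith)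
    have h4 := Real.exp_pos (-(r * μ))
    nlinarith
  exact hlower.trans hupper

end Pool.Agent.H82
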