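import Mathlib
import Pool.Agent.H82.APKey

/-!
The counting inequality for two-stage procedures with arithmetic-progression tests identifying
sets of size `k`.
-/

set_option autoImplicit false

namespace Pool.Agent.H82

open Finset

/-- tangent-line form of Jensen's inequality for the exponential function -/
theorem jensen_exp {N : ℕ} (hN : 1 ≤ N) (r : ℝ) (g : ℕ → ℕ) :
    (N : ℝ) * Real.exp (-(r * ((∑ t ∈ range N, (g t : ℝ)) / N))) ≤
      ∑ t ∈ range N, Real.exp (-r) ^ g t := by
  have hNpos : (0 : ℝ) < N := by exact_mod_cast hN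
  set μ : ℝ := (∑ t ∈ range N, (g t : ℝ)) / N with hμ
  have h1 : ∀ x ∈ range N, Real.exp (-(r * μ)) * (1 - r * ((g x : ℝ) - μ)) ≤
      Real.exp (-r) ^ g x := by
    intro x _
    have h2 : Real.exp (-r) ^ g x =
        Real.exp (-(r * μ)) * Real.exp (-(r * ((g x : ℝ) - μ))) := by
      rw [← Real.exp_nat_mul, ← Real.exp_add]
      congr 1
      ring
    rw [h2]
    apply mul_le_mul_of_nonneg_left _ (Real.exp_pos _).le
    have := Real.add_one_le_exp (-(r * ((g x : ℝ) - μ)))
    linarith
  refine le_trans (le_of_eq ?_) (Finset.sum_le_sum h1)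
  rw [← Finset.mul_sum, Finset.sum_sub_distrib, ← Finset.mul_sum, Finset.sum_sub_distrib]
  simp only [Finset.sum_const, card_range, nsmul_eq_mul, mul_one]
  have h3 : ∑ x ∈ range N, (g x : ℝ) - N * μ = 0 := by
    rw [hμ]; field_simp; ring
  rw [h3]
  ring

theorem multi {n k m q N B M : ℕ} (hN : 1 ≤ N) (hkN : k * N ≤ n) (hB : 1 ≤ B) (hM : 0 < M)
    (hMd : ∀ d, 1 ≤ d → d < B → d ∣ M)
    (T : Fin m → Finset ℕ) (J : (Fin m → Bool) → Finset ℕ)
    (hT : ∀ i, T i ⊆ range (n + 1) ∧
      ∃ a d L : ℕ, T i = (range L).image (fun j => a + d * j))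
    (hJ : ∀ o, (J o).card ≤ q)
    (hS : ∀ S S' : Finset ℕ, S ⊆ Icc 1 n → S' ⊆ Icc 1 n → S.card ≤ k → S'.card ≤ k →
      (fun i => decide (Disjoint (T i) S)) = (fun i => decide (Disjoint (T i) S')) →
      S ∩ J (fun i => decide (Disjoint (T i) S)) = S' ∩ J (fun i => decide (Disjoint (T i) S)) →
      S = S')
    (r : ℝ) (hr : 0 ≤ r) :
    (N : ℝ) ^ k * Real.exp (-(r * (m * (((n + 1 : ℕ) : ℝ) / B + 1) / N))) ≤
      2 ^ q * ((M : ℝ) * (m + 1) ^ 2) ^ k * (1 + Real.exp (-r)) ^ m := by
  classical
  choose hsub a d L hTeq using hT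
  have hNpos : (0 : ℝ) < N := by exact_mod_cast hN
  set sp : Fin m → Prop := fun i => d i = 0 ∨ B ≤ d i with hsp
  set A : ℕ → Finset (Fin m) := fun x => univ.filter (fun i => sp i ∧ x ∈ T i) with hA
  set r1 : ℕ → ℕ := fun x => (univ.filter (fun i => a i ≤ x)).card with hr1
  set r2 : ℕ → ℕ := fun x => (univ.filter (fun i => a i + d i * L i ≤ x)).card with hr2
  set X : Fin k → ℕ → ℕ := fun j t => j * N + t + 1 with hX
  set S : (Fin k → ℕ) → Finset ℕ := fun s => univ.image (fun j => X j (s j)) with hSdef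
  set P : (Fin k → ℕ) → Finset (Fin m) :=
    fun s => univ.filter (fun i => sp i ∧ ∃ j, X j (s j) ∈ T i) with hP
  set Θ : (Fin k → ℕ) → (Fin k → ℕ × ℕ × ℕ) × Finset (Fin m) :=
    fun s => (fun j => (X j (s j) % M, r1 (X j (s j)), r2 (X j (s j))), P s) with hΘ
  set I : Finset (Fin k → ℕ) := Fintype.piFinset (fun _ : Fin k => range N) with hI
  have hI_mem : ∀ s, s ∈ I ↔ ∀ j, s j < N := by
    intro s; simp [hI]
  -- membership of dense tests is determined
  have hdense : ∀ i, ¬ sp i → ∀ x y, x % M = y % M → r1 x = r1 y → r2 x = r2 y →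
      (x ∈ T i ↔ y ∈ T i) := by
    intro i hi x y h1 h2 h3
    simp only [hsp] at hi
    push Not at hi
    have hdi : 1 ≤ d i := Nat.one_le_iff_ne_zero.mpr hi.1
    rw [hTeq i, mem_ap_iff hdi, mem_ap_iff hdi]
    have e1 := thr a h2 i
    have e2 := thr (fun i => a i + d i * L i) h3 i
    have e3 : x ≡ y [MOD d i] := (show x ≡ y [MOD M] from h1).of_dvd (hMd _ hdi hi.2)
    constructor
    · rintro ⟨h5, h6, h7⟩
      exact ⟨e1.mp h5, not_le.mp (fun h => absurd (e2.mpr h) (not_le.mpr h6)), e3.symm.trans h7⟩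
    · rintro ⟨h5, h6, h7⟩
      exact ⟨e1.mpr h5, not_le.mp (fun h => absurd (e2.mp h) (not_le.mpr h6)), e3.trans h7⟩
  have hdisj : ∀ s i, Disjoint (T i) (S s) ↔ ∀ j, X j (s j) ∉ T i := by
    intro s i
    rw [Finset.disjoint_right]
    constructor
    · intro h j
      apply h
      simp only [hSdef, mem_image, mem_univ, true_and]
      exact ⟨j, rfl⟩
    · intro h x hx
      simp only [hSdef, mem_image, mem_univ, true_and] at hx
      obtain ⟨j, rfl⟩ := hx
      exact h j
  have hout : ∀ s s', Θ s = Θ s' →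
      (fun i => decide (Disjoint (T i) (S s))) = (fun i => decide (Disjoint (T i) (S s'))) := by
    intro s s' h
    simp only [hΘ, Prod.mk.injEq] at h
    obtain ⟨h1, h2⟩ := h
    funext i
    have key : Disjoint (T i) (S s) ↔ Disjoint (T i) (S s') := by
      rw [hdisj, hdisj]
      by_cases hi : sp i
      · have h3 := Finset.ext_iff.mp h2 i
        simp only [hP, mem_filter, mem_univ, true_and, hi] at h3
        constructor
        · intro h4 j hj
          obtain ⟨j', hj'⟩ := h3.mpr ⟨j, hj⟩
          exact h4 j' hj'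
        · intro h4 j hj
          obtain ⟨j', hj'⟩ := h3.mp ⟨j, hj⟩
          exact h4 j' hj'
      · apply forall_congr'
        intro j
        have h3 := congrFun h1 j
        simp only [Prod.mk.injEq] at h3
        rw [hdense i hi _ _ h3.1 h3.2.1 h3.2.2]
    simp only [key]
  have hS_sub : ∀ s ∈ I, S s ⊆ Icc 1 n := by
    intro s hs x hx
    rw [hI_mem] at hs
    simp only [hSdef, mem_image, mem_univ, true_and, hX] at hx
    obtain ⟨j, rfl⟩ := hx
    rw [mem_Icc]
    refine ⟨by omega, ?_⟩
    have h1 := hs j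
    have h2 : (j : ℕ) * N + N ≤ k * N := by
      have : ((j : ℕ) + 1) * N ≤ k * N := Nat.mul_le_mul_right _ j.2
      linarith
    omega
  have hS_card : ∀ s, (S s).card ≤ k := by
    intro s
    have := Finset.card_image_le (s := (univ : Finset (Fin k))) (f := fun j => X j (s j))
    simpa [hSdef] using this
  have hX_inj : ∀ j j' : Fin k, ∀ t t', t < N → t' < N → X j t = X j' t' → j = j' ∧ t = t' := by
    intro j j' t t' ht ht' h
    simp only [hX] at h
    have h1 : (j : ℕ) * N + t = j' * N + t' := by omega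
    have h2 : (j : ℕ) = j' := by
      have e1 : ((j : ℕ) * N + t) / N = j := by
        rw [mul_comm, Nat.mul_add_div (by omega), Nat.div_eq_of_lt ht, add_zero]
      have e2 : ((j' : ℕ) * N + t') / N = j' := by
        rw [mul_comm, Nat.mul_add_div (by omega), Nat.div_eq_of_lt ht', add_zero]
      rw [← e1, h1, e2]
    refine ⟨Fin.ext h2, ?_⟩
    rw [h2] at h1
    omega
  have hS_inj : ∀ s ∈ I, ∀ s' ∈ I, S s = S s' → s = s' := by
    intro s hs s' hs' h
    rw [hI_mem] at hs hs'
    funext j
    have h1 : X j (s j) ∈ S s' := by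
      rw [← h]
      simp only [hSdef, mem_image, mem_univ, true_and]
      exact ⟨j, rfl⟩
    simp only [hSdef, mem_image, mem_univ, true_and] at h1
    obtain ⟨j', hj'⟩ := h1
    obtain ⟨h2, h3⟩ := hX_inj j' j _ _ (hs' j') (hs j) hj'
    rw [h2] at h3
    exact h3.symm
  have hfib : ∀ θ, (I.filter (fun s => Θ s = θ)).card ≤ 2 ^ q := by
    intro θ
    rcases (I.filter (fun s => Θ s = θ)).eq_empty_or_nonempty with h | ⟨s₀, hs₀⟩
    · rw [h]; simp
    · rw [mem_filter] at hs₀
      set o : Fin m → Bool := fun i => decide (Disjoint (T i) (S s₀)) with ho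
      have h1 : (I.filter (fun s => Θ s = θ)).card ≤ ((J o).powerset).card := by
        apply Finset.card_le_card_of_injOn (fun s => S s ∩ J o)
        · intro s _
          simp only [coe_powerset, Set.mem_preimage, Set.mem_powerset_iff, coe_subset]
          exact Finset.inter_subset_right
        · intro s hs s' hs' h
          rw [mem_coe, mem_filter] at hs hs'
          have e1 := hout s s₀ (hs.2.trans hs₀.2.symm)
          have e2 := hout s' s₀ (hs'.2.trans hs₀.2.symm)
          apply hS_inj s hs.1 s' hs'.1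
          apply hS _ _ (hS_sub s hs.1) (hS_sub s' hs'.1) (hS_card s) (hS_card s')
            (e1.trans e2.symm)
          rw [e1]
          exact h
      refine h1.trans ?_
      rw [card_powerset]
      exact Nat.pow_le_pow_right (by norm_num) (hJ o)
  -- upper bound
  set Q : Finset (ℕ × ℕ × ℕ) := (range M) ×ˢ ((range (m + 1)) ×ˢ (range (m + 1))) with hQ
  set R : Finset ((Fin k → ℕ × ℕ × ℕ) × Finset (Fin m)) :=
    (Fintype.piFinset (fun _ : Fin k => Q)) ×ˢ (univ : Finset (Finset (Fin m))) with hR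
  have hmaps : ∀ s ∈ I, Θ s ∈ R := by
    intro s _
    simp only [hR, hΘ, mem_product, mem_univ, and_true, Fintype.mem_piFinset, hQ, mem_range]
    intro j
    refine ⟨Nat.mod_lt _ hM, ?_, ?_⟩
    · have := Finset.card_filter_le (univ : Finset (Fin m)) (fun i => a i ≤ X j (s j))
      simp only [card_univ, Fintype.card_fin] at this
      simp only [hr1]; omega
    · have := Finset.card_filter_le (univ : Finset (Fin m)) (fun i => a i + d i * L i ≤ X j (s j))
      simp only [card_univ, Fintype.card_fin] at this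
      simp only [hr2]; omega
  have hupper : ∑ s ∈ I, Real.exp (-r) ^ (P s).card ≤
      2 ^ q * ((M : ℝ) * (m + 1) ^ 2) ^ k * (1 + Real.exp (-r)) ^ m := by
    rw [← Finset.sum_fiberwise_of_maps_to hmaps]
    have h1 : ∀ θ ∈ R, ∑ s ∈ I.filter (fun s => Θ s = θ), Real.exp (-r) ^ (P s).card ≤
        2 ^ q * Real.exp (-r) ^ (θ.2).card := by
      intro θ _
      have h2 : ∀ s ∈ I.filter (fun s => Θ s = θ),
          Real.exp (-r) ^ (P s).card = Real.exp (-r) ^ (θ.2).card := by
        intro s hs
        rw [mem_filter] at hs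
        rw [← hs.2]
      rw [Finset.sum_congr rfl h2, Finset.sum_const, nsmul_eq_mul]
      apply mul_le_mul_of_nonneg_right _ (by positivity)
      exact_mod_cast hfib θ
    refine (Finset.sum_le_sum h1).trans ?_
    rw [← Finset.mul_sum]
    have h5 : ∑ θ ∈ R, Real.exp (-r) ^ (θ.2).card =
        ((M : ℝ) * (m + 1) ^ 2) ^ k * (1 + Real.exp (-r)) ^ m := by
      rw [hR, Finset.sum_product]
      simp only [Finset.sum_const, nsmul_eq_mul, Fintype.card_piFinset, hQ, card_product,
        card_range, prod_const, card_univ, Fintype.card_fin]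
      have h6 : ∑ A : Finset (Fin m), Real.exp (-r) ^ A.card = (1 + Real.exp (-r)) ^ m := by
        have := Fintype.sum_pow_mul_eq_add_pow (Fin m) (Real.exp (-r)) (1 : ℝ)
        simp only [one_pow, mul_one, Fintype.card_fin] at this
        rw [this, add_comm]
      rw [h6]
      push_cast
      ring
    rw [h5]
    apply le_of_eq
    ring
  -- lower bound
  have hexp1 : Real.exp (-r) ≤ 1 := by
    rw [Real.exp_le_one_iff]; linarith
  have hPA : ∀ s, (P s).card ≤ ∑ j, (A (X j (s j))).card := by
    intro s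
    have h1 : P s ⊆ univ.biUnion (fun j => A (X j (s j))) := by
      intro i hi
      simp only [hP, mem_filter, mem_univ, true_and] at hi
      obtain ⟨h2, j, hj⟩ := hi
      simp only [mem_biUnion, mem_univ, true_and, hA, mem_filter]
      exact ⟨j, h2, hj⟩
    exact (Finset.card_le_card h1).trans Finset.card_biUnion_le
  have hlow1 : ∑ s ∈ I, ∏ j, Real.exp (-r) ^ (A (X j (s j))).card ≤
      ∑ s ∈ I, Real.exp (-r) ^ (P s).card := by
    apply Finset.sum_le_sum
    intro s _
    rw [Finset.prod_pow_eq_pow_sum]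
    exact pow_le_pow_of_le_one (Real.exp_pos _).le hexp1 (hPA s)
  have hprod : ∑ s ∈ I, ∏ j, Real.exp (-r) ^ (A (X j (s j))).card =
      ∏ j : Fin k, ∑ t ∈ range N, Real.exp (-r) ^ (A (X j t)).card := by
    rw [Finset.prod_univ_sum]
  have hlow2 : ∏ j : Fin k, ((N : ℝ) *
        Real.exp (-(r * ((∑ t ∈ range N, ((A (X j t)).card : ℝ)) / N)))) ≤
      ∏ j : Fin k, ∑ t ∈ range N, Real.exp (-r) ^ (A (X j t)).card := by
    apply Finset.prod_le_prod
    · intro j _; positivity
    · intro j _
      exact jensen_exp hN r (fun t => (A (X j t)).card)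
  have htotal : ∑ j : Fin k, ∑ t ∈ range N, ((A (X j t)).card : ℝ) ≤
      m * (((n + 1 : ℕ) : ℝ) / B + 1) := by
    have h1 : ∑ j : Fin k, ∑ t ∈ range N, (A (X j t)).card =
        ∑ i : Fin m, (((univ : Finset (Fin k)) ×ˢ (range N)).filter
          (fun p => sp i ∧ X p.1 p.2 ∈ T i)).card := by
      rw [← Finset.sum_product' (univ : Finset (Fin k)) (range N) (fun j t => (A (X j t)).card)]
      simp only [hA, Finset.card_filter]
      rw [Finset.sum_comm]
    have h2 : ∀ i : Fin m, ((((univ : Finset (Fin k)) ×ˢ (range N)).filter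
          (fun p => sp i ∧ X p.1 p.2 ∈ T i)).card : ℝ) ≤ ((n + 1 : ℕ) : ℝ) / B + 1 := by
      intro i
      by_cases hi : sp i
      · have h3 : (((univ : Finset (Fin k)) ×ˢ (range N)).filter
            (fun p => sp i ∧ X p.1 p.2 ∈ T i)).card ≤ (T i).card := by
          apply Finset.card_le_card_of_injOn (fun p => X p.1 p.2)
          · intro p hp
            rw [mem_coe, mem_filter] at hp
            exact hp.2.2
          · intro p hp p' hp' h
            rw [mem_coe, mem_filter, mem_product, mem_range] at hp hp'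
            obtain ⟨h4, h5⟩ := hX_inj p.1 p'.1 p.2 p'.2 hp.1.2 hp'.1.2 h
            exact Prod.ext h4 h5
        have h4 : (((T i).card : ℕ) : ℝ) ≤ ((n + 1 : ℕ) : ℝ) / B + 1 := by
          have h5 := card_sparse (n := n + 1) (a := a i) (L := L i) hB hi
            (by rw [← hTeq i]; exact hsub i)
          rw [← hTeq i] at h5
          exact h5
        refine le_trans ?_ h4
        exact_mod_cast h3
      · have h3 : (((univ : Finset (Fin k)) ×ˢ (range N)).filter
            (fun p => sp i ∧ X p.1 p.2 ∈ T i)) = ∅ := by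
          apply Finset.filter_eq_empty_iff.mpr
          intro x _ hx
          exact hi hx.1
        rw [h3]
        simp only [card_empty, Nat.cast_zero]
        positivity
    have h3 : ((∑ j : Fin k, ∑ t ∈ range N, (A (X j t)).card : ℕ) : ℝ) ≤
        m * (((n + 1 : ℕ) : ℝ) / B + 1) := by
      rw [h1]
      rw [Nat.cast_sum]
      refine (Finset.sum_le_sum (fun i _ => h2 i)).trans ?_
      rw [Finset.sum_const, card_univ, Fintype.card_fin, nsmul_eq_mul]
    exact_mod_cast h3
  have hlow3 : (N : ℝ) ^ k * Real.exp (-(r * (m * (((n + 1 : ℕ) : ℝ) / B + 1) / N))) ≤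
      ∏ j : Fin k, ((N : ℝ) *
        Real.exp (-(r * ((∑ t ∈ range N, ((A (X j t)).card : ℝ)) / N)))) := by
    rw [Finset.prod_mul_distrib, Finset.prod_const, card_univ, Fintype.card_fin,
      ← Real.exp_sum]
    apply mul_le_mul_of_nonneg_left _ (by positivity)
    apply Real.exp_le_exp.mpr
    rw [Finset.sum_neg_distrib, ← Finset.mul_sum, ← Finset.sum_div]
    have h1 : (∑ j : Fin k, ∑ t ∈ range N, ((A (X j t)).card : ℝ)) / N ≤
        m * (((n + 1 : ℕ) : ℝ) / B + 1) / N :=
      div_le_div_of_nonneg_right htotal hNpos.le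
    have h2 := mul_le_mul_of_nonneg_left h1 hr
    linarith
  calc _ ≤ _ := hlow3
    _ ≤ _ := hlow2
    _ = _ := hprod.symm
    _ ≤ _ := hlow1
    _ ≤ _ := hupper

end Pool.Agent.H82
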