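import Mathlib

set_option autoImplicit false

open Cardinal Ordinal Set

namespace Pool.Agent.H82.Ditor

universe u

/-- A total relation all of whose sections have size less than `κ` lives on a set of size at
most `κ`. -/
theorem mk_le_of_total {D : Type u} (r : D → D → Prop) (htot : ∀ x y, r x y ∨ r y x)
    {κ : Cardinal.{u}} (hκ : ℵ₀ ≤ κ) (h : ∀ x, #{y // r y x} < κ) : #D ≤ κ := by
  by_contra hlt
  rw [not_le] at hlt
  obtain ⟨E, hE⟩ := Cardinal.le_mk_iff_exists_set.1 hlt.le
  have hcov : (Set.univ : Set D) ⊆ ⋃ e : E, {x | r x e} := by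
    intro x _
    by_contra hx
    have h1 : ∀ e ∈ E, r e x := by
      intro e he
      rcases htot e x with h1 | h1
      · exact h1
      · exact absurd (Set.mem_iUnion.2 ⟨⟨e, he⟩, h1⟩) hx
    have h2 : κ ≤ #{y // r y x} := by
      rw [← hE]
      exact Cardinal.mk_le_mk_of_subset h1
    exact absurd (h x) (not_lt.2 h2)
  have h3 : #D ≤ κ := by
    calc #D = #(Set.univ : Set D) := Cardinal.mk_univ.symm
      _ ≤ #(⋃ e : E, {x | r x e}) := Cardinal.mk_le_mk_of_subset hcov
      _ ≤ Cardinal.sum (fun e : E => #{x | r x e}) := Cardinal.mk_iUnion_le_sum_mk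
      _ ≤ Cardinal.sum (fun _ : E => κ) := Cardinal.sum_le_sum _ _ (fun e => (h e).le)
      _ = #E * κ := by simp
      _ = κ := by rw [hE]; exact Cardinal.mul_eq_self hκ
  exact absurd h3 (not_le.2 hlt)

theorem exists_le_aleph {c : Cardinal.{u}} (h : c < ℵ_ ω) : ∃ n : ℕ, c ≤ ℵ_ (n : Ordinal.{u}) := by
  rw [Cardinal.aleph_limit Ordinal.isSuccLimit_omega0] at h
  have : Nonempty (Iio (ω : Ordinal.{u})) := ⟨⟨0, Ordinal.omega0_pos⟩⟩
  obtain ⟨a, ha⟩ := exists_lt_of_lt_ciSup h
  obtain ⟨n, hn⟩ := Ordinal.lt_omega0.1 a.2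
  exact ⟨n, by rw [← hn]; exact ha.le⟩

theorem aleph_nat_lt (n : ℕ) : (ℵ_ (n : Ordinal.{u}) : Cardinal.{u}) < ℵ_ ω :=
  Cardinal.aleph_lt_aleph.2 (Ordinal.natCast_lt_omega0 n)

theorem aleph_omega_lt : (ℵ_ ω : Cardinal.{u}) < ℵ_ (ω + 1) :=
  Cardinal.aleph_lt_aleph.2 (Order.lt_succ _)

theorem lt_aleph_succ {c : Cardinal.{u}} (h : c < ℵ_ (ω + 1)) : c ≤ ℵ_ ω := by
  have h' : (ℵ_ (ω + 1) : Cardinal.{u}) = Order.succ (ℵ_ ω) := by
    rw [Cardinal.succ_aleph]
  rw [h'] at h
  exact Order.lt_succ_iff.1 h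

/-- A set of size `> κ` of elements with small principal ideals contains a sequence no term of
which is below the join of two earlier ones. -/
theorem exists_seq {L : Type u} [SemilatticeSup L] {W : Type u} [LinearOrder W]
    [WellFoundedLT W] {κ : Cardinal.{u}} (hκ : ℵ₀ ≤ κ) (hL : κ < #L)
    (hW : ∀ w : W, #(Iio w) ≤ κ) (hI : ∀ a : L, #(Iic a) ≤ κ) :
    ∃ b : W → L, ∀ w v v', v < w → v' < w → ¬ b w ≤ b v ⊔ b v' := by
  classical
  have key : ∀ (w : W) (f : (v : W) → v < w → L),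
      ∃ x : L, ∀ v v' (hv : v < w) (hv' : v' < w), ¬ x ≤ f v hv ⊔ f v' hv' := by
    intro w f
    by_contra hcon
    push Not at hcon
    have hcov : (Set.univ : Set L) ⊆ ⋃ p : Iio w × Iio w, Iic (f p.1.1 p.1.2 ⊔ f p.2.1 p.2.2) := by
      intro x _
      obtain ⟨v, v', hv, hv', hx⟩ := hcon x
      exact Set.mem_iUnion.2 ⟨(⟨v, hv⟩, ⟨v', hv'⟩), hx⟩
    have h3 : #L ≤ κ := by
      calc #L = #(Set.univ : Set L) := Cardinal.mk_univ.symm
        _ ≤ #(⋃ p : Iio w × Iio w, Iic (f p.1.1 p.1.2 ⊔ f p.2.1 p.2.2) : Set L) :=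
            Cardinal.mk_le_mk_of_subset hcov
        _ ≤ Cardinal.sum (fun p : Iio w × Iio w => #(Iic (f p.1.1 p.1.2 ⊔ f p.2.1 p.2.2))) :=
            Cardinal.mk_iUnion_le_sum_mk
        _ ≤ Cardinal.sum (fun _ : Iio w × Iio w => κ) :=
            Cardinal.sum_le_sum _ _ (fun e => (hI _))
        _ = #(Iio w × Iio w) * κ := by simp
        _ = #(Iio w) * #(Iio w) * κ := by rw [Cardinal.mk_prod, Cardinal.lift_id]
        _ ≤ κ * κ * κ := by gcongr <;> exact hW w
        _ = κ := by rw [Cardinal.mul_eq_self hκ, Cardinal.mul_eq_self hκ]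
    exact absurd h3 (not_le.2 hL)
  choose F hF using key
  refine ⟨(wellFounded_lt (α := W)).fix F, ?_⟩
  intro w v v' hv hv'
  rw [WellFounded.fix_eq]
  exact hF w _ v v' hv hv'

/-- In a join-semilattice satisfying the three element form of breadth at most two, a sequence as
in `exists_seq` yields a locally small colouring that is subadditive of the second kind. -/
theorem coloring_of_seq {L : Type u} [SemilatticeSup L] {W : Type u} [LinearOrder W]
    (h3 : ∀ a b c : L, a ≤ b ⊔ c ∨ b ≤ a ⊔ c ∨ c ≤ a ⊔ b)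
    (hI : ∀ a : L, #(Iic a) < ℵ_ ω)
    (b : W → L) (hb : ∀ w v v', v < w → v' < w → ¬ b w ≤ b v ⊔ b v') :
    ∃ d : W → W → ℕ, (∀ α (n : ℕ), #{β // β < α ∧ d β α ≤ n} ≤ ℵ_ (n : Ordinal.{u})) ∧
      ∀ β α γ, β < α → α < γ → d β α ≤ max (d β γ) (d α γ) := by
  classical
  have hex : ∀ a : L, ∃ n : ℕ, #(Iic a) ≤ ℵ_ (n : Ordinal.{u}) := fun a => exists_le_aleph (hI a)
  set j : L → ℕ := fun a => Nat.find (hex a) with hj
  have hjspec : ∀ a : L, #(Iic a) ≤ ℵ_ (j a : Ordinal.{u}) := fun a => Nat.find_spec (hex a)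
  have hjmono : ∀ a a' : L, a ≤ a' → j a ≤ j a' := by
    intro a a' haa
    refine Nat.find_min' (hex a) ?_
    exact le_trans (Cardinal.mk_le_mk_of_subset (Iic_subset_Iic.2 haa)) (hjspec a')
  have hcomp : ∀ β β' α, β < α → β' < α → b β ⊔ b α ≤ b β' ⊔ b α ∨ b β' ⊔ b α ≤ b β ⊔ b α := by
    intro β β' α hβ hβ'
    rcases h3 (b β) (b β') (b α) with h | h | h
    · exact Or.inl (sup_le h le_sup_right)
    · exact Or.inr (sup_le h le_sup_right)
    · exact absurd h (hb α β β' hβ hβ')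
  refine ⟨fun β α => j (b β ⊔ b α) + 1, ?_, ?_⟩
  · intro α n
    rcases n with _ | m
    · have : IsEmpty {β // β < α ∧ j (b β ⊔ b α) + 1 ≤ 0} := ⟨fun x => by
        have := x.2.2
        omega⟩
      rw [Cardinal.mk_eq_zero]
      exact bot_le
    · refine mk_le_of_total (fun x y => b x.1 ⊔ b α ≤ b y.1 ⊔ b α)
        (fun x y => hcomp _ _ _ x.2.1 y.2.1) (Cardinal.aleph0_le_aleph _) ?_
      intro x
      have hx : j (b x.1 ⊔ b α) ≤ m := by
        have : j (b x.1 ⊔ b α) + 1 ≤ m + 1 := x.2.2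
        omega
      have h1 : #{y : {β // β < α ∧ j (b β ⊔ b α) + 1 ≤ m + 1} // b y.1 ⊔ b α ≤ b x.1 ⊔ b α}
          ≤ #(Iic (b x.1 ⊔ b α)) := by
        refine Cardinal.mk_le_of_injective
          (f := fun y => (⟨b y.1.1, le_trans le_sup_left y.2⟩ : Iic (b x.1 ⊔ b α))) ?_
        intro y y' hyy
        have hbb : b y.1.1 = b y'.1.1 := congrArg Subtype.val hyy
        rcases lt_trichotomy y.1.1 y'.1.1 with h | h | h
        · exact absurd (by rw [hbb]; exact le_sup_left) (hb _ _ _ h h)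
        · exact Subtype.ext (Subtype.ext h)
        · exact absurd (by rw [hbb]; exact le_sup_left) (hb _ _ _ h h)
      refine lt_of_le_of_lt (le_trans h1 (hjspec _)) ?_
      refine Cardinal.aleph_lt_aleph.2 ?_
      exact_mod_cast Nat.lt_succ_of_le hx
  · intro β α γ hβα hαγ
    have hβγ := hβα.trans hαγ
    rcases hcomp β α γ hβγ hαγ with h | h
    · have : b β ⊔ b α ≤ b α ⊔ b γ := sup_le (le_trans le_sup_left h) le_sup_left
      have := hjmono _ _ this
      simp only [le_max_iff]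
      right
      omega
    · have : b β ⊔ b α ≤ b β ⊔ b γ := sup_le le_sup_left (le_trans le_sup_left h)
      have := hjmono _ _ this
      simp only [le_max_iff]
      left
      omega

/-- Breadth at most `n`, as in the problem: every nonempty finite `X` has a subset `Y` with at
most `n` elements and the same join. -/
def BreadthLE (n : ℕ) (L : Type u) [SemilatticeSup L] : Prop :=
  ∀ X : Finset L, X.Nonempty → ∃ Y : Finset L, Y ⊆ X ∧ Y.card ≤ n ∧
    ∃ s : L, IsLUB (X : Set L) s ∧ IsLUB (Y : Set L) s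

theorem three_of_breadthLE {L : Type u} [SemilatticeSup L] (h : BreadthLE 2 L) (a b c : L) :
    a ≤ b ⊔ c ∨ b ≤ a ⊔ c ∨ c ≤ a ⊔ b := by
  classical
  by_contra hcon
  push Not at hcon
  obtain ⟨h1, h2, h3⟩ := hcon
  have hab : a ≠ b := by rintro rfl; exact h1 le_sup_left
  have hac : a ≠ c := by rintro rfl; exact h1 le_sup_right
  have hbc : b ≠ c := by rintro rfl; exact h2 le_sup_right
  obtain ⟨Y, hYX, hYc, s, hsX, hsY⟩ := h {a, b, c} (by simp)
  have hcard : ({a, b, c} : Finset L).card = 3 := Finset.card_eq_three.2 ⟨a, b, c, hab, hac, hbc, rfl⟩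
  have hne : Y ≠ {a, b, c} := by rintro rfl; omega
  obtain ⟨x, hxX, hxY⟩ : ∃ x ∈ ({a, b, c} : Finset L), x ∉ Y := by
    by_contra hh
    push Not at hh
    exact hne (Finset.Subset.antisymm hYX hh)
  have hxs : x ≤ s := hsX.1 (by exact_mod_cast hxX)
  simp only [Finset.mem_insert, Finset.mem_singleton] at hxX
  rcases hxX with rfl | rfl | rfl
  · refine h1 (le_trans hxs (hsY.2 ?_))
    intro y hy
    have hy' := hYX hy
    simp only [Finset.mem_insert, Finset.mem_singleton] at hy'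
    rcases hy' with rfl | rfl | rfl
    · exact absurd hy hxY
    · exact le_sup_left
    · exact le_sup_right
  · refine h2 (le_trans hxs (hsY.2 ?_))
    intro y hy
    have hy' := hYX hy
    simp only [Finset.mem_insert, Finset.mem_singleton] at hy'
    rcases hy' with rfl | rfl | rfl
    · exact le_sup_left
    · exact absurd hy hxY
    · exact le_sup_right
  · refine h3 (le_trans hxs (hsY.2 ?_))
    intro y hy
    have hy' := hYX hy
    simp only [Finset.mem_insert, Finset.mem_singleton] at hy'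
    rcases hy' with rfl | rfl | rfl
    · exact le_sup_left
    · exact le_sup_right
    · exact absurd hy hxY

/-- The ranks of a well-founded relation all of whose predecessor sets have size at most `ℵ_n`
are below `ω_{n+1}`. -/
theorem rank_lt {W : Type u} (R : W → W → Prop) [IsWellFounded W R] (n : ℕ)
    (h : ∀ α, #{β // R β α} ≤ ℵ_ (n : Ordinal.{u})) (α : W) :
    IsWellFounded.rank R α < ω_ ((n : Ordinal.{u}) + 1) := by
  induction α using IsWellFounded.induction R with
  | ind α ih =>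
    rw [IsWellFounded.rank_eq]
    have hreg : (ℵ_ ((n : Ordinal.{u}) + 1)).IsRegular := Cardinal.isRegular_aleph_add_one _
    refine Ordinal.iSup_lt_of_lt_cof ?_ ?_
    · rw [← Cardinal.ord_aleph, hreg.cof_ord]
      exact lt_of_le_of_lt (h α) (Cardinal.aleph_lt_aleph.2 (Order.lt_succ _))
    · rintro ⟨β, hβ⟩
      have := ih β hβ
      exact (Cardinal.isSuccLimit_omega _).succ_lt this

/-- The index set: the canonical well-ordered set of order type `ω_{ω+1}`. -/
abbrev Idx : Type u := (ω_ (ω + 1) : Ordinal.{u}).ToType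

theorem mk_Idx : #Idx.{u} = ℵ_ (ω + 1) := by
  rw [Cardinal.mk_toType, Ordinal.card_omega]

theorem mk_Iio_Idx (w : Idx.{u}) : #(Iio w) ≤ ℵ_ ω := by
  apply lt_aleph_succ
  have h := Cardinal.mk_Iio_lt w (by rw [mk_Idx, Cardinal.ord_aleph, Ordinal.type_toType])
  rwa [mk_Idx] at h

theorem no_coloring (k : ℕ) (d : Idx.{u} → Idx.{u} → ℕ)
    (hd : ∀ α (n : ℕ), #{β // β < α ∧ d β α ≤ n} ≤ ℵ_ (n : Ordinal.{u}))
    (h2 : ∀ β α γ, β < α → α < γ → d β α ≤ max (d β γ) (d α γ))
    (hC : ∀ (F : ℕ → Idx.{u} → Idx.{u}) (U : Set Idx.{u}), #U = ℵ_ ω →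
      ∃ S : Set Idx.{u}, (∀ n, ∀ x ∈ S, F n x ∈ S) ∧ #S = ℵ_ ((k : Ordinal.{u}) + 1) ∧
        #{x : S // (x : Idx.{u}) ∈ U} ≤ ℵ_ (k : Ordinal.{u})) : False := by
  classical
  -- the relations
  let R : ℕ → Idx.{u} → Idx.{u} → Prop := fun n β α => β < α ∧ d β α ≤ n
  have hwf : ∀ n, IsWellFounded Idx.{u} (R n) := fun n =>
    ⟨Subrelation.wf (r := (· < ·)) (fun h => h.1) wellFounded_lt⟩
  have hrank : ∀ n w, @IsWellFounded.rank _ (R n) (hwf n) w < ω_ ω := by
    intro n w
    have := @rank_lt _ (R n) (hwf n) n (fun α => hd α n) w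
    refine this.trans_le ?_
    rw [Ordinal.omega_le_omega]
    have : ((n : Ordinal.{u}) + 1) = ((n + 1 : ℕ) : Ordinal.{u}) := by push_cast; rfl
    rw [this]
    exact (Ordinal.natCast_lt_omega0 _).le
  -- the set `U`
  obtain ⟨U, hU⟩ : ∃ U : Set Idx.{u}, #U = ℵ_ ω := by
    apply Cardinal.le_mk_iff_exists_set.1
    rw [mk_Idx]
    exact aleph_omega_lt.le
  have hUe : #((ω_ ω : Ordinal.{u}).ToType) = #U := by
    rw [hU, Cardinal.mk_toType, Ordinal.card_omega]
  obtain ⟨e⟩ := Cardinal.eq.1 hUe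
  let F : ℕ → Idx.{u} → Idx.{u} := fun n w =>
    (e (Ordinal.ToType.mk ⟨@IsWellFounded.rank _ (R n) (hwf n) w, hrank n w⟩) : Idx.{u})
  have hFU : ∀ n w, F n w ∈ U := fun n w => Subtype.mem _
  have hFinj : ∀ n w w', F n w = F n w' →
      @IsWellFounded.rank _ (R n) (hwf n) w = @IsWellFounded.rank _ (R n) (hwf n) w' := by
    intro n w w' h
    have h1 := e.injective (Subtype.ext h)
    have h2 := Ordinal.ToType.mk.injective h1
    exact congrArg Subtype.val h2
  obtain ⟨S, hSF, hS, hSU⟩ := hC F U hU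
  -- a bound for `S`
  obtain ⟨γ, hγ⟩ : ∃ γ : Idx.{u}, ∀ s ∈ S, s < γ := by
    by_contra hcon
    push Not at hcon
    have hcov : (Set.univ : Set Idx.{u}) ⊆ ⋃ s : S, Iic s.1 := by
      intro x _
      obtain ⟨s, hs, hxs⟩ := hcon x
      exact Set.mem_iUnion.2 ⟨⟨s, hs⟩, hxs⟩
    have hk : (ℵ_ ((k : Ordinal.{u}) + 1) : Cardinal.{u}) ≤ ℵ_ ω := by
      have : ((k : Ordinal.{u}) + 1) = ((k + 1 : ℕ) : Ordinal.{u}) := by push_cast; rfl
      rw [this]
      exact (aleph_nat_lt _).le
    have hIic : ∀ w : Idx.{u}, #(Iic w) ≤ ℵ_ ω := by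
      intro w
      have : Iic w = insert w (Iio w) := by
        ext x
        simp [le_iff_eq_or_lt]
      rw [this]
      refine (Cardinal.mk_insert_le).trans ?_
      refine (add_le_add_left (mk_Iio_Idx w) 1).trans ?_
      rw [Cardinal.add_one_of_aleph0_le (Cardinal.aleph0_le_aleph _)]
    have h3 : #Idx.{u} ≤ ℵ_ ω := by
      calc #Idx.{u} = #(Set.univ : Set Idx.{u}) := Cardinal.mk_univ.symm
        _ ≤ #(⋃ s : S, Iic s.1 : Set Idx.{u}) := Cardinal.mk_le_mk_of_subset hcov
        _ ≤ Cardinal.sum (fun s : S => #(Iic s.1)) := Cardinal.mk_iUnion_le_sum_mk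
        _ ≤ Cardinal.sum (fun _ : S => ℵ_ ω) := Cardinal.sum_le_sum _ _ (fun s => hIic s.1)
        _ = #S * ℵ_ ω := by simp
        _ ≤ ℵ_ ω * ℵ_ ω := by rw [hS]; gcongr
        _ = ℵ_ ω := Cardinal.mul_eq_self (Cardinal.aleph0_le_aleph _)
    rw [mk_Idx] at h3
    exact absurd h3 (not_le.2 aleph_omega_lt)
  -- pigeonhole
  obtain ⟨n, hn⟩ : ∃ n : ℕ, (ℵ_ (k : Ordinal.{u}) : Cardinal.{u}) < #{s : S // d s.1 γ ≤ n} := by
    by_contra hcon
    push Not at hcon
    have hcov : (Set.univ : Set S) ⊆ ⋃ n : ULift.{u} ℕ, {s : S | d s.1 γ ≤ n.down} := by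
      intro s _
      exact Set.mem_iUnion.2 ⟨⟨d s.1 γ⟩, le_refl (d s.1 γ)⟩
    have h3 : #S ≤ ℵ_ (k : Ordinal.{u}) := by
      calc #S = #(Set.univ : Set S) := Cardinal.mk_univ.symm
        _ ≤ #(⋃ n : ULift.{u} ℕ, {s : S | d s.1 γ ≤ n.down} : Set S) :=
            Cardinal.mk_le_mk_of_subset hcov
        _ ≤ Cardinal.sum (fun n : ULift.{u} ℕ => #{s : S | d s.1 γ ≤ n.down}) :=
            Cardinal.mk_iUnion_le_sum_mk
        _ ≤ Cardinal.sum (fun _ : ULift.{u} ℕ => ℵ_ (k : Ordinal.{u})) :=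
            Cardinal.sum_le_sum _ _ (fun n => hcon n.down)
        _ = ℵ₀ * ℵ_ (k : Ordinal.{u}) := by simp
        _ = ℵ_ (k : Ordinal.{u}) := Cardinal.aleph0_mul_eq (Cardinal.aleph0_le_aleph _)
    rw [hS] at h3
    exact absurd h3 (not_le.2 (Cardinal.aleph_lt_aleph.2 (Order.lt_succ _)))
  -- the contradiction
  refine absurd hSU (not_le.2 (hn.trans_le ?_))
  refine Cardinal.mk_le_of_injective
    (f := fun s : {s : S // d s.1 γ ≤ n} =>
      (⟨⟨F n s.1.1, hSF n _ s.1.2⟩, hFU n _⟩ : {x : S // (x : Idx.{u}) ∈ U})) ?_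
  intro s s' hss
  have h1 : F n s.1.1 = F n s'.1.1 := congrArg (fun x => x.1.1) hss
  have h4 := hFinj n _ _ h1
  have hlt : ∀ s s' : {s : S // d s.1 γ ≤ n}, s.1.1 < s'.1.1 →
      @IsWellFounded.rank _ (R n) (hwf n) s.1.1 < @IsWellFounded.rank _ (R n) (hwf n) s'.1.1 := by
    intro s s' hlt
    have hR : R n s.1.1 s'.1.1 :=
      ⟨hlt, (h2 _ _ γ hlt (hγ _ s'.1.2)).trans (max_le s.2 s'.2)⟩
    exact @IsWellFounded.rank_lt_of_rel _ _ _ (R n) (hwf n) hR
  rcases lt_trichotomy s.1.1 s'.1.1 with h | h | h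
  · exact absurd h4 (hlt _ _ h).ne
  · exact Subtype.ext (Subtype.ext h)
  · exact absurd h4 (hlt _ _ h).ne'

/-- In a well-founded relation with predecessor sets of size at most `κ`, also the transitive
closure has predecessor sets of size at most `κ`. -/
theorem mk_transGen_le {W : Type u} (R : W → W → Prop) (hwf : WellFounded R) {κ : Cardinal.{u}}
    (hκ : ℵ₀ ≤ κ) (h : ∀ α, #{β // R β α} ≤ κ) (α : W) :
    #{β // Relation.TransGen R β α} ≤ κ := by
  induction α using hwf.induction with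
  | _ α ih =>
    have hcov : {β | Relation.TransGen R β α} ⊆
        {β | R β α} ∪ ⋃ ζ : {ζ // R ζ α}, {β | Relation.TransGen R β ζ} := by
      intro β hβ
      rcases Relation.TransGen.tail'_iff.1 hβ with ⟨ζ, h1, h2⟩
      rcases Relation.reflTransGen_iff_eq_or_transGen.1 h1 with h3 | h3
      · left
        rw [h3] at h2
        exact h2
      · right
        exact Set.mem_iUnion.2 ⟨⟨ζ, h2⟩, h3⟩
    calc #{β // Relation.TransGen R β α}
        ≤ #({β | R β α} ∪ ⋃ ζ : {ζ // R ζ α}, {β | Relation.TransGen R β ζ} : Set W) :=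
          Cardinal.mk_le_mk_of_subset hcov
      _ ≤ #{β | R β α} + #(⋃ ζ : {ζ // R ζ α}, {β | Relation.TransGen R β ζ} : Set W) :=
          Cardinal.mk_union_le _ _
      _ ≤ κ + Cardinal.sum (fun ζ : {ζ // R ζ α} => #{β | Relation.TransGen R β ζ}) := by
          gcongr
          · exact h α
          · exact Cardinal.mk_iUnion_le_sum_mk
      _ ≤ κ + Cardinal.sum (fun _ : {ζ // R ζ α} => κ) := by
          exact add_le_add le_rfl (Cardinal.sum_le_sum _ _ (fun ζ => ih ζ.1 ζ.2))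
      _ = κ + #{ζ // R ζ α} * κ := by simp
      _ ≤ κ + κ * κ := by gcongr; exact h α
      _ = κ := by rw [Cardinal.mul_eq_self hκ, Cardinal.add_eq_self hκ]

/-- A locally small colouring that is subadditive of the second kind can be turned into one that
is also subadditive of the first kind. -/
theorem both_kinds {W : Type u} [LinearOrder W] [WellFoundedLT W] (d : W → W → ℕ)
    (hd : ∀ α (n : ℕ), #{β // β < α ∧ d β α ≤ n} ≤ ℵ_ (n : Ordinal.{u}))
    (h2 : ∀ β α γ, β < α → α < γ → d β α ≤ max (d β γ) (d α γ)) :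
    ∃ c : W → W → ℕ, (∀ α (n : ℕ), #{β // β < α ∧ c β α ≤ n} ≤ ℵ_ (n : Ordinal.{u})) ∧
      (∀ β α γ, β < α → α < γ → c β α ≤ max (c β γ) (c α γ)) ∧
      (∀ β α γ, β < α → α < γ → c β γ ≤ max (c β α) (c α γ)) := by
  classical
  let R : ℕ → W → W → Prop := fun n β α => β < α ∧ d β α ≤ n
  have hRmono : ∀ {m n : ℕ}, m ≤ n → ∀ β α, R m β α → R n β α :=
    fun h β α hR => ⟨hR.1, hR.2.trans h⟩
  have hwf : ∀ n, WellFounded (R n) := fun n =>
    Subrelation.wf (r := (· < ·)) (fun h => h.1) wellFounded_lt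
  have hTlt : ∀ n β α, Relation.TransGen (R n) β α → β < α := by
    intro n β α h
    induction h with
    | single h => exact h.1
    | tail _ h ih => exact ih.trans h.1
  have hRTle : ∀ n β α, Relation.ReflTransGen (R n) β α → β ≤ α := by
    intro n β α h
    induction h with
    | refl => exact le_rfl
    | tail _ h ih => exact ih.trans h.1.le
  have hex : ∀ β α, ∃ n, β < α → Relation.TransGen (R n) β α := by
    intro β α
    exact ⟨d β α, fun h => Relation.TransGen.single ⟨h, le_rfl⟩⟩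
  have hcle : ∀ β α, β < α → ∀ n, Nat.find (hex β α) ≤ n ↔ Relation.TransGen (R n) β α := by
    intro β α hβα n
    constructor
    · intro h
      exact Relation.TransGen.mono (hRmono h) _ _ (Nat.find_spec (hex β α) hβα)
    · intro h
      exact Nat.find_min' (hex β α) (fun _ => h)
  -- the second kind property of the reachability relation
  have key : ∀ n γ, ∀ β α, β < α → Relation.ReflTransGen (R n) β γ →
      Relation.ReflTransGen (R n) α γ → Relation.ReflTransGen (R n) β α := by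
    intro n γ
    induction γ using (wellFounded_lt (α := W)).induction with
    | _ γ ih =>
      intro β α hβα h1 h2'
      rcases Relation.ReflTransGen.cases_tail h2' with h | ⟨δ, hδ1, hδ2⟩
      · rw [h] at h1; exact h1
      rcases Relation.ReflTransGen.cases_tail h1 with h | ⟨ζ, hζ1, hζ2⟩
      · rw [h] at h2'
        exact absurd (hRTle _ _ _ h2') (not_le.2 hβα)
      rcases lt_trichotomy ζ δ with hlt | heq | hgt
      · have hR : R n ζ δ := ⟨hlt, (h2 _ _ _ hlt hδ2.1).trans (max_le hζ2.2 hδ2.2)⟩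
        exact ih δ hδ2.1 β α hβα (hζ1.tail hR) hδ1
      · subst heq
        exact ih ζ hδ2.1 β α hβα hζ1 hδ1
      · have hR : R n δ ζ := ⟨hgt, (h2 _ _ _ hgt hζ2.1).trans (max_le hδ2.2 hζ2.2)⟩
        exact ih ζ hζ2.1 β α hβα hζ1 (hδ1.tail hR)
  refine ⟨fun β α => Nat.find (hex β α), ?_, ?_, ?_⟩
  · intro α n
    refine le_trans ?_ (mk_transGen_le (R n) (hwf n) (Cardinal.aleph0_le_aleph _)
      (fun α => hd α n) α)
    exact Cardinal.mk_subtype_le_of_subset (fun β hβ => (hcle β α hβ.1 n).1 hβ.2)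
  · intro β α γ hβα hαγ
    have hβγ := hβα.trans hαγ
    set n := max (Nat.find (hex β γ)) (Nat.find (hex α γ)) with hn
    have e1 : Relation.TransGen (R n) β γ := (hcle β γ hβγ n).1 (le_max_left _ _)
    have e2 : Relation.TransGen (R n) α γ := (hcle α γ hαγ n).1 (le_max_right _ _)
    have e3 := key n γ β α hβα e1.to_reflTransGen e2.to_reflTransGen
    rcases Relation.reflTransGen_iff_eq_or_transGen.1 e3 with h | h
    · exact absurd h hβα.ne'
    · exact (hcle β α hβα n).2 h
  · intro β α γ hβα hαγ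
    have hβγ := hβα.trans hαγ
    set n := max (Nat.find (hex β α)) (Nat.find (hex α γ)) with hn
    have e1 : Relation.TransGen (R n) β α := (hcle β α hβα n).1 (le_max_left _ _)
    have e2 : Relation.TransGen (R n) α γ := (hcle α γ hαγ n).1 (le_max_right _ _)
    exact (hcle β γ hβγ n).2 (e1.trans e2)

/-- The points of the semilattice built from a colouring. -/
structure Pt (W : Type u) : Type u where
  fst : W
  snd : ℕ

theorem Pt.ext' {W : Type u} {x y : Pt W} (h1 : x.fst = y.fst) (h2 : x.snd = y.snd) : x = y := by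
  cases x; cases y; simp_all

/-- The symmetrised colouring. -/
def sym {W : Type u} [LinearOrder W] (c : W → W → ℕ) (β α : W) : ℕ :=
  if β < α then c β α else if α < β then c α β else 0

theorem sym_self {W : Type u} [LinearOrder W] (c : W → W → ℕ) (β : W) : sym c β β = 0 := by
  simp [sym]

theorem sym_comm {W : Type u} [LinearOrder W] (c : W → W → ℕ) (β α : W) :
    sym c β α = sym c α β := by
  unfold sym
  rcases lt_trichotomy β α with h | h | h
  · rw [if_pos h, if_neg h.not_gt, if_pos h]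
  · subst h; simp
  · rw [if_neg h.not_gt, if_pos h, if_pos h]

theorem sym_second {W : Type u} [LinearOrder W] {c : W → W → ℕ}
    (hA : ∀ β α γ, β < α → α < γ → c β α ≤ max (c β γ) (c α γ)) {β α γ : W} (h1 : β ≤ γ)
    (h2 : α ≤ γ) : sym c β α ≤ max (sym c β γ) (sym c α γ) := by
  rcases h1.eq_or_lt with rfl | h1
  · rw [sym_comm c β α]; exact le_max_right _ _
  rcases h2.eq_or_lt with rfl | h2
  · exact le_max_left _ _
  rcases lt_trichotomy β α with h | h | h
  · have := hA β α γ h h2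
    simpa [sym, h, h1, h2] using this
  · subst h; rw [sym_self]; exact Nat.zero_le _
  · have := hA α β γ h h1
    rw [max_comm] at this
    simpa [sym, h, h.not_gt, h1, h2] using this

theorem sym_first {W : Type u} [LinearOrder W] {c : W → W → ℕ}
    (hB : ∀ β α γ, β < α → α < γ → c β γ ≤ max (c β α) (c α γ)) {β α γ : W} (h1 : β ≤ α)
    (h2 : α ≤ γ) : sym c β γ ≤ max (sym c β α) (sym c α γ) := by
  rcases h1.eq_or_lt with rfl | h1
  · exact le_max_right _ _
  rcases h2.eq_or_lt with rfl | h2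
  · exact le_max_left _ _
  have := hB β α γ h1 h2
  simpa [sym, h1, h2, h1.trans h2] using this

/-- The join-semilattice built from a colouring with both subadditivity properties. -/
abbrev ptSup {W : Type u} [LinearOrder W] (c : W → W → ℕ)
    (hA : ∀ β α γ, β < α → α < γ → c β α ≤ max (c β γ) (c α γ))
    (hB : ∀ β α γ, β < α → α < γ → c β γ ≤ max (c β α) (c α γ)) : SemilatticeSup (Pt W) where
  le x y := x.fst ≤ y.fst ∧ x.snd ≤ y.snd ∧ sym c x.fst y.fst ≤ y.snd
  le_refl x := ⟨le_rfl, le_rfl, by rw [sym_self]; exact Nat.zero_le _⟩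
  le_trans x y z h1 h2 := by
    refine ⟨h1.1.trans h2.1, h1.2.1.trans h2.2.1, ?_⟩
    refine (sym_first hB h1.1 h2.1).trans (max_le ?_ h2.2.2)
    exact h1.2.2.trans h2.2.1
  le_antisymm x y h1 h2 := Pt.ext' (le_antisymm h1.1 h2.1) (le_antisymm h1.2.1 h2.2.1)
  sup x y := ⟨max x.fst y.fst, max (max x.snd y.snd) (sym c x.fst y.fst)⟩
  le_sup_left x y := by
    refine ⟨le_max_left _ _, (le_max_left _ _).trans (le_max_left _ _), ?_⟩
    rcases le_total x.fst y.fst with h | h
    · simp only [max_eq_right h]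
      exact le_max_right _ _
    · simp only [max_eq_left h]
      rw [sym_self]; exact Nat.zero_le _
  le_sup_right x y := by
    refine ⟨le_max_right _ _, (le_max_right _ _).trans (le_max_left _ _), ?_⟩
    rcases le_total x.fst y.fst with h | h
    · simp only [max_eq_right h]
      rw [sym_self]; exact Nat.zero_le _
    · simp only [max_eq_left h]
      rw [sym_comm]
      exact le_max_right _ _
  sup_le x y z h1 h2 := by
    refine ⟨max_le h1.1 h2.1, max_le (max_le h1.2.1 h2.2.1) ?_, ?_⟩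
    · exact (sym_second hA h1.1 h2.1).trans (max_le h1.2.2 h2.2.2)
    · rcases le_total x.fst y.fst with h | h
      · simp only [max_eq_right h]; exact h2.2.2
      · simp only [max_eq_left h]; exact h1.2.2

/-- A join-semilattice of size `> κ` with principal ideals of size `< κ` is not a chain. -/
theorem not_breadth_one {L : Type u} [SemilatticeSup L] {κ : Cardinal.{u}} (hκ : ℵ₀ ≤ κ)
    (hL : κ < #L) (hI : ∀ a : L, #(Iic a) < κ) : ¬ BreadthLE 1 L := by
  classical
  intro h
  have htot : ∀ x y : L, x ≤ y ∨ y ≤ x := by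
    intro x y
    obtain ⟨Y, hY, hYc, s, hs, hsY⟩ := h {x, y} (by simp)
    have hxs : x ≤ s := hs.1 (by simp)
    have hys : y ≤ s := hs.1 (by simp)
    have : Nonempty L := ⟨x⟩
    rcases Finset.card_le_one_iff_subset_singleton.1 hYc with ⟨z, hz⟩
    by_cases hzx : z = x
    · right
      refine hys.trans (hsY.2 ?_)
      intro t ht
      have := hz ht
      rw [Finset.mem_singleton] at this
      rw [this, hzx]
    · left
      refine hxs.trans (hsY.2 ?_)
      intro t ht
      have h1 := hz ht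
      have h2 := hY ht
      rw [Finset.mem_singleton] at h1
      simp only [Finset.mem_insert, Finset.mem_singleton] at h2
      rcases h2 with h2 | h2
      · exact absurd (h1.symm.trans h2) hzx
      · exact h2.le
  exact absurd (mk_le_of_total (fun x y : L => x ≤ y) htot hκ (fun x => hI x)) (not_le.2 hL)

theorem lattice_of_coloring (c : Idx.{u} → Idx.{u} → ℕ)
    (hc : ∀ α (n : ℕ), #{β // β < α ∧ c β α ≤ n} < ℵ_ ω)
    (hA : ∀ β α γ, β < α → α < γ → c β α ≤ max (c β γ) (c α γ))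
    (hB : ∀ β α γ, β < α → α < γ → c β γ ≤ max (c β α) (c α γ)) :
    ∃ (L : Type u) (_ : SemilatticeSup L), BreadthLE 2 L ∧ ¬ BreadthLE 1 L ∧
      #L = ℵ_ (ω + 1) ∧ ∀ a : L, #(Iic a) < ℵ_ ω := by
  classical
  let _ := ptSup c hA hB
  have hle : ∀ x y : Pt Idx.{u}, x ≤ y ↔
      x.fst ≤ y.fst ∧ x.snd ≤ y.snd ∧ sym c x.fst y.fst ≤ y.snd := fun x y => Iff.rfl
  have hsup : ∀ x y : Pt Idx.{u}, x ⊔ y =
      ⟨max x.fst y.fst, max (max x.snd y.snd) (sym c x.fst y.fst)⟩ := fun x y => rfl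
  have hcard : #(Pt Idx.{u}) = ℵ_ (ω + 1) := by
    have e : Pt Idx.{u} ≃ Idx.{u} × ULift.{u} ℕ :=
      { toFun := fun x => (x.fst, ⟨x.snd⟩)
        invFun := fun x => ⟨x.1, x.2.down⟩
        left_inv := fun x => rfl
        right_inv := fun x => rfl }
    rw [Cardinal.mk_congr e, Cardinal.mk_prod, mk_Idx]
    simp
  have hI : ∀ a : Pt Idx.{u}, #(Iic a) < ℵ_ ω := by
    intro a
    have hinj : #(Iic a) ≤ #(Option {β // β < a.fst ∧ c β a.fst ≤ a.snd} × ULift.{u} ℕ) := by
      refine Cardinal.mk_le_of_injective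
        (f := fun x : Iic a => (if h : x.1.fst < a.fst then
          (some ⟨x.1.fst, h, by
            have := x.2.2.2
            rwa [sym, if_pos h] at this⟩ : Option {β // β < a.fst ∧ c β a.fst ≤ a.snd})
          else none, (⟨x.1.snd⟩ : ULift.{u} ℕ))) ?_
      intro x y hxy
      have h1 := congrArg Prod.fst hxy
      have h2 : x.1.snd = y.1.snd := congrArg (fun p => p.2.down) hxy
      refine Subtype.ext (Pt.ext' ?_ h2)
      have hx := x.2.1
      have hy := y.2.1
      by_cases h3 : x.1.fst < a.fst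
      · by_cases h4 : y.1.fst < a.fst
        · simp only [dif_pos h3, dif_pos h4] at h1
          exact congrArg Subtype.val (Option.some.inj h1)
        · simp [dif_pos h3, dif_neg h4] at h1
      · by_cases h4 : y.1.fst < a.fst
        · simp [dif_neg h3, dif_pos h4] at h1
        · exact (le_antisymm hx (not_lt.1 h3)).trans (le_antisymm hy (not_lt.1 h4)).symm
    refine lt_of_le_of_lt hinj ?_
    rw [Cardinal.mk_prod, Cardinal.mk_option]
    have hω : (ℵ₀ : Cardinal.{u}) < ℵ_ ω := by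
      rw [← Cardinal.aleph_zero]
      exact Cardinal.aleph_lt_aleph.2 Ordinal.omega0_pos
    simp only [Cardinal.mk_uLift, Cardinal.mk_nat, Cardinal.lift_aleph0,
      Cardinal.lift_id]
    refine Cardinal.mul_lt_of_lt hω.le ?_ hω
    exact Cardinal.add_lt_of_lt hω.le (hc _ _) (Cardinal.one_lt_aleph0.trans hω)
  refine ⟨Pt Idx.{u}, inferInstance, ?_, ?_, hcard, hI⟩
  · intro X hX
    obtain ⟨x0, hx0, hmax⟩ := X.exists_max_image (fun x => x.fst) hX
    obtain ⟨x1, hx1, hmax1⟩ := X.exists_max_image (fun x => (x ⊔ x0).snd) hX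
    have hub : ∀ x ∈ X, x ≤ x1 ⊔ x0 := by
      intro x hx
      have e1 : x ≤ x ⊔ x0 := le_sup_left
      refine e1.trans ?_
      rw [hle]
      have f1 : (x ⊔ x0).fst = x0.fst := max_eq_right (hmax x hx)
      have f2 : (x1 ⊔ x0).fst = x0.fst := max_eq_right (hmax x1 hx1)
      rw [f1, f2, sym_self]
      exact ⟨le_rfl, hmax1 x hx, Nat.zero_le _⟩
    refine ⟨{x1, x0}, ?_, Finset.card_le_two, x1 ⊔ x0, ⟨?_, ?_⟩, ⟨?_, ?_⟩⟩
    · intro y hy
      simp only [Finset.mem_insert, Finset.mem_singleton] at hy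
      rcases hy with rfl | rfl
      · exact hx1
      · exact hx0
    · intro x hx
      exact hub x hx
    · intro y hy
      exact sup_le (hy hx1) (hy hx0)
    · intro y hy
      simp only [Finset.coe_insert, Finset.coe_singleton, Set.mem_insert_iff,
        Set.mem_singleton_iff] at hy
      rcases hy with rfl | rfl
      · exact le_sup_left
      · exact le_sup_right
    · intro y hy
      exact sup_le (hy (by simp)) (hy (by simp))
  · exact not_breadth_one (Cardinal.aleph0_le_aleph ω) (by rw [hcard]; exact aleph_omega_lt) hI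

theorem coloring_of_lattice {L : Type u} [SemilatticeSup L] (hB : BreadthLE 2 L)
    (hL : ℵ_ ω < #L) (hI : ∀ a : L, #(Iic a) < ℵ_ ω) :
    ∃ d : Idx.{u} → Idx.{u} → ℕ,
      (∀ α (n : ℕ), #{β // β < α ∧ d β α ≤ n} ≤ ℵ_ (n : Ordinal.{u})) ∧
      ∀ β α γ, β < α → α < γ → d β α ≤ max (d β γ) (d α γ) := by
  obtain ⟨b, hb⟩ := exists_seq (L := L) (W := Idx.{u}) (κ := ℵ_ ω) (Cardinal.aleph0_le_aleph _)
    hL mk_Iio_Idx (fun a => (hI a).le)
  exact coloring_of_seq (three_of_breadthLE hB) hI b hb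

end Pool.Agent.H82.Ditor
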